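import Pool.Agent.R518.Drift

/-!
Two adjacent windows after a prime: the statement of the question is false, and it fails for all large `n`.

By the prime number theorem with error `O(x / log^U x)` the windows `(x, x + n]` and `(x + n, x + 2 n]` with
`x ≤ n log^2 n` contain numbers of primes whose difference is positive and of order at least `n / log^4 n`:
the decrease of the density of the primes dominates the error term.
-/

set_option autoImplicit false

open Filter

/-- There is `N` such that for every `n ≥ N` and every prime `p ≤ p_n` (the `n`-th prime, which is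
`Nat.nth Nat.Prime (n - 1)`), the interval `(p + n, p + 2 n]` contains strictly fewer primes than
`(p, p + n]`. In particular it is not true that for every `n > 1` there is a prime `p ≤ p_n` such that
the two intervals contain the same positive number of primes. -/
theorem Pool.Agent.Results.MP_d7b30a_nt.NeverEqual.result :
    (∃ N : ℕ, ∀ n : ℕ, N ≤ n → ∀ p : ℕ, p.Prime → p ≤ Nat.nth Nat.Prime (n - 1) →
      Nat.primeCounting (p + 2 * n) - Nat.primeCounting (p + n) <
        Nat.primeCounting (p + n) - Nat.primeCounting p) ∧
    ¬ ∀ n : ℕ, 1 < n → ∃ p : ℕ, p.Prime ∧ p ≤ Nat.nth Nat.Prime (n - 1) ∧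
      Nat.primeCounting (p + 2 * n) - Nat.primeCounting (p + n) =
        Nat.primeCounting (p + n) - Nat.primeCounting p ∧
      0 < Nat.primeCounting (p + n) - Nat.primeCounting p := by
  have h1 : ∃ N : ℕ, ∀ n : ℕ, N ≤ n → ∀ p : ℕ, p.Prime → p ≤ Nat.nth Nat.Prime (n - 1) →
      Nat.primeCounting (p + 2 * n) - Nat.primeCounting (p + n) <
        Nat.primeCounting (p + n) - Nat.primeCounting p := by
    obtain ⟨N, hN⟩ := ((Pool.Agent.R518.Drift.drift 2).and
      Pool.Agent.R518.Drift.nth_le).exists_forall_of_atTop
    refine ⟨N, fun n hn p _ hpn => (hN n hn).1 p (le_trans ?_ (hN n hn).2)⟩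
    exact_mod_cast hpn
  refine ⟨h1, fun h => ?_⟩
  obtain ⟨N, hN⟩ := h1
  obtain ⟨p, hp, hpn, he, -⟩ := h (max N 2) (lt_of_lt_of_le one_lt_two (le_max_right _ _))
  exact (hN (max N 2) (le_max_left _ _) p hp hpn).ne he
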